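import Pool.Agent.H.MP_216555_lc.SToPI

/-!
# Derived schemes, part A: tuples with a fixed initial part
-/

set_option autoImplicit false
set_option linter.unusedSectionVars false

namespace MS216

variable {V : Type} {m : ℕ}

/-- The fibre of the color of `z` over `π_s z` (the last coordinate is omitted): the last coordinates
of the tuples in the color of `z` with the same first `s` coordinates as `z`. -/
def MScheme.Fib (X : MScheme V m) {s : ℕ} (z : Fin (s + 1) ↪ V) : Type :=
  {y : V // ∃ w : Fin (s + 1) ↪ V, del (Fin.last s) w = del (Fin.last s) z ∧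
    w (Fin.last s) = y ∧ (X.rel (s + 1)) z w}

/-- The valency of the color of `z` (over the projection which omits the last coordinate). -/
noncomputable def MScheme.valency (X : MScheme V m) {s : ℕ} (z : Fin (s + 1) ↪ V) : ℕ :=
  Nat.card {w : Fin (s + 1) ↪ V // del (Fin.last s) w = del (Fin.last s) z ∧
    (X.rel (s + 1)) z w}

private theorem Fib_notMem (X : MScheme V m) {s : ℕ} (z : Fin (s + 1) ↪ V) (y : X.Fib z)
    (j : Fin s) : del (Fin.last s) z j ≠ y.1 := by
  obtain ⟨w, h1, h2, -⟩ := y.2
  intro h
  have h0 : w ((Fin.last s).succAbove j) = del (Fin.last s) z j := congrArg (fun q => q j) h1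
  have h3 := w.injective ((h0.trans h).trans h2.symm)
  exact (Fin.succAbove_ne (Fin.last s) j) h3

private theorem app_aux (X : MScheme V m) {s : ℕ} (z : Fin (s + 1) ↪ V) {t : ℕ}
    (x : Fin t ↪ X.Fib z) :
    Function.Injective (Fin.append (del (Fin.last s) z) fun i => (x i).1) := by
  intro a b
  refine Fin.addCases (fun i => ?_) (fun i => ?_) a <;>
    refine Fin.addCases (fun j => ?_) (fun j => ?_) b
  · rw [Fin.append_left, Fin.append_left]
    intro h
    rw [(del (Fin.last s) z).injective h]
  · rw [Fin.append_left, Fin.append_right]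
    intro h
    exact absurd h (Fib_notMem X z (x j) i)
  · rw [Fin.append_left, Fin.append_right]
    intro h
    exact absurd h.symm (Fib_notMem X z (x i) j)
  · rw [Fin.append_right, Fin.append_right]
    intro h
    rw [x.injective (Subtype.ext h)]

/-- The tuple `(z 0, …, z (s - 1), x 0, …, x (t - 1))`. -/
def MScheme.app (X : MScheme V m) {s : ℕ} (z : Fin (s + 1) ↪ V) {t : ℕ} (x : Fin t ↪ X.Fib z) :
    Fin (s + t) ↪ V :=
  ⟨Fin.append (del (Fin.last s) z) fun i => (x i).1, app_aux X z x⟩

theorem MScheme.app_castAdd (X : MScheme V m) {s : ℕ} (z : Fin (s + 1) ↪ V) {t : ℕ}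
    (x : Fin t ↪ X.Fib z) (j : Fin s) :
    X.app z x (Fin.castAdd t j) = del (Fin.last s) z j :=
  Fin.append_left (del (Fin.last s) z) (fun i => (x i).1) j

theorem MScheme.app_natAdd (X : MScheme V m) {s : ℕ} (z : Fin (s + 1) ↪ V) {t : ℕ}
    (x : Fin t ↪ X.Fib z) (j : Fin t) :
    X.app z x (Fin.natAdd s j) = (x j).1 :=
  Fin.append_right (del (Fin.last s) z) (fun i => (x i).1) j

theorem MScheme.app_inj (X : MScheme V m) {s : ℕ} (z : Fin (s + 1) ↪ V) {t : ℕ}
    {x y : Fin t ↪ X.Fib z} (h : X.app z x = X.app z y) : x = y := by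
  refine Function.Embedding.ext fun j => Subtype.ext ?_
  rw [← X.app_natAdd z x j, ← X.app_natAdd z y j, h]

theorem MScheme.del_app (X : MScheme V m) {s : ℕ} (z : Fin (s + 1) ↪ V) {t : ℕ}
    (x : Fin (t + 1) ↪ X.Fib z) (i : Fin (t + 1)) :
    del (s := s + t) (Fin.natAdd s i) (X.app z x) = X.app z (del i x) := by
  refine Function.Embedding.ext fun k => ?_
  refine Fin.addCases (fun j => ?_) (fun j => ?_) k
  · have h1 : Fin.succAbove (n := s + t) (Fin.natAdd s i) (Fin.castAdd t j) =
        Fin.castAdd (t + 1) j := by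
      refine Fin.ext ?_
      have := j.2
      simp only [Fin.succAbove, Fin.lt_def, Fin.val_castSucc, Fin.val_castAdd, Fin.val_natAdd]
      rw [if_pos (by omega)]
      rfl
    show X.app z x (Fin.succAbove (n := s + t) (Fin.natAdd s i) (Fin.castAdd t j)) = _
    rw [h1, X.app_castAdd, X.app_castAdd]
  · have h1 : Fin.succAbove (n := s + t) (Fin.natAdd s i) (Fin.natAdd s j) =
        Fin.natAdd s (i.succAbove j) := by
      refine Fin.ext ?_
      by_cases h : (j : ℕ) < i
      · have h2 : j.castSucc < i := h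
        simp only [Fin.succAbove, Fin.lt_def, Fin.val_castSucc, Fin.val_natAdd]
        rw [if_pos (by omega), if_pos (by omega)]
        rfl
      · simp only [Fin.succAbove, Fin.lt_def, Fin.val_castSucc, Fin.val_natAdd]
        rw [if_neg (by omega), if_neg (by omega)]
        rfl
    show X.app z x (Fin.succAbove (n := s + t) (Fin.natAdd s i) (Fin.natAdd s j)) = _
    rw [h1, X.app_natAdd, X.app_natAdd]
    rfl

/-- The color of `(z 0, …, z (s - 1), x 0)` is the color of `z`. -/
theorem MScheme.rel_app_one (X : MScheme V m) {s : ℕ} (z : Fin (s + 1) ↪ V)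
    (x : Fin 1 ↪ X.Fib z) : (X.rel (s + 1)) z (X.app z x) := by
  obtain ⟨w, h1, h2, h3⟩ := (x 0).2
  have h4 : X.app z x = w := by
    refine Function.Embedding.ext fun k => ?_
    refine Fin.addCases (fun j => ?_) (fun j => ?_) k
    · have h0 : w ((Fin.last s).succAbove j) = del (Fin.last s) z j :=
        congrArg (fun q => q j) h1
      rw [X.app_castAdd, ← h0, Fin.succAbove_last]
      rfl
    · rw [X.app_natAdd, Subsingleton.elim j 0, ← h2]
      rfl
  rw [h4]
  exact h3

end MS216
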