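import Pool.Agent.H.MP_216555_lc.d.DerL

/-!
# Derived schemes, part P: extension of permutations, cardinality
-/

set_option autoImplicit false
set_option linter.unusedSectionVars false

namespace MS216

variable {V : Type} {m : ℕ}

/-- The permutation which is the identity on the first `s` places. -/
theorem exists_ext_perm (s : ℕ) {t : ℕ} (σ : Equiv.Perm (Fin t)) :
    ∃ τ : Equiv.Perm (Fin (s + t)), (∀ j : Fin s, τ (Fin.castAdd t j) = Fin.castAdd t j) ∧
      (∀ j : Fin t, τ (Fin.natAdd s j) = Fin.natAdd s (σ j)) ∧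
      (σ.IsThreeCycle → τ.IsThreeCycle) := by
  obtain ⟨f, hf⟩ : ∃ f : Fin t ≃ {k : Fin (s + t) // s ≤ k.val},
      ∀ j, ((f j : {k : Fin (s + t) // s ≤ k.val}) : Fin (s + t)) = Fin.natAdd s j :=
    ⟨{ toFun := fun j => ⟨Fin.natAdd s j, Nat.le_add_right s j.val⟩
       invFun := fun k => ⟨k.1.val - s, by
        have h1 := k.1.isLt
        have h2 := k.2
        omega⟩
       left_inv := fun j => Fin.ext (by
        show s + j.val - s = j.val
        omega)
       right_inv := fun k => Subtype.ext (Fin.ext (by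
        have h2 := k.2
        show s + (k.1.val - s) = k.1.val
        omega)) }, fun j => rfl⟩
  refine ⟨σ.extendDomain f, fun j => ?_, fun j => ?_, fun h => ?_⟩
  · refine Equiv.Perm.extendDomain_apply_not_subtype σ f ?_
    show ¬ s ≤ j.val
    exact Nat.not_le.2 j.isLt
  · rw [← hf j, Equiv.Perm.extendDomain_apply_image, hf]
  · unfold Equiv.Perm.IsThreeCycle at h ⊢
    rw [Equiv.Perm.cycleType_extendDomain, h]

theorem MScheme.perm_app (X : MScheme V m) {s : ℕ} (z : Fin (s + 1) ↪ V) {t : ℕ}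
    (σ : Equiv.Perm (Fin t)) (τ : Equiv.Perm (Fin (s + t)))
    (h1 : ∀ j : Fin s, τ (Fin.castAdd t j) = Fin.castAdd t j)
    (h2 : ∀ j : Fin t, τ (Fin.natAdd s j) = Fin.natAdd s (σ j)) (x : Fin t ↪ X.Fib z) :
    perm τ (X.app z x) = X.app z (perm σ x) := by
  refine Function.Embedding.ext fun i => ?_
  show X.app z x (τ i) = X.app z (perm σ x) i
  refine Fin.addCases (fun j => ?_) (fun j => ?_) i
  · rw [h1, X.app_castAdd, X.app_castAdd]
  · rw [h2, X.app_natAdd, X.app_natAdd]
    rfl

theorem MScheme.card_Fib (X : MScheme V m) {s : ℕ} (z : Fin (s + 1) ↪ V) :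
    Nat.card (X.Fib z) = X.valency z := by
  have hb : Function.Bijective (fun w : {w : Fin (s + 1) ↪ V //
      del (Fin.last s) w = del (Fin.last s) z ∧ (X.rel (s + 1)) z w} =>
      (⟨w.1 (Fin.last s), w.1, w.2.1, rfl, w.2.2⟩ : X.Fib z)) := by
    constructor
    · intro w w' h
      have h1 : w.1 (Fin.last s) = w'.1 (Fin.last s) := congrArg (fun y : X.Fib z => y.1) h
      refine Subtype.ext (Function.Embedding.ext fun i => ?_)
      refine Fin.lastCases h1 (fun j => ?_) i
      have h2 : del (Fin.last s) w.1 = del (Fin.last s) w'.1 := w.2.1.trans w'.2.1.symm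
      have h3 : del (Fin.last s) w.1 j = del (Fin.last s) w'.1 j := by rw [h2]
      have h4 : w.1 ((Fin.last s).succAbove j) = w'.1 ((Fin.last s).succAbove j) := h3
      rw [Fin.succAbove_last] at h4
      exact h4
    · rintro ⟨y, w, h1, h2, h3⟩
      exact ⟨⟨w, h1, h3⟩, Subtype.ext h2⟩
  unfold MScheme.valency
  exact (Nat.card_congr (Equiv.ofBijective _ hb)).symm

end MS216
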