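import Pool.Agent.H.MP_216555_lc.d.DerK
import Pool.Agent.H.MP_216555_lc.d.DerP

/-!
# Derived schemes, part B: the scheme on a fibre
-/

set_option autoImplicit false
set_option linter.unusedSectionVars false

namespace MS216

variable {V : Type} {m : ℕ}

/-- The derived scheme. -/
def MScheme.der [Fintype V] (X : MScheme V m) {s : ℕ} (hs : s < m) (z : Fin (s + 1) ↪ V) :
    MScheme (X.Fib z) (m - s) where
  rel := X.derRel z
  compatible := fun t ht x y h i => by
    have h1 := X.compatible (s + t) (by omega) _ _ h (Fin.natAdd s i)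
    rw [X.del_app, X.del_app] at h1
    exact h1
  regular := fun t ht i x y h z' => by
    rw [X.card_fib z (by omega) i x z', X.card_fib z (by omega) i y z']
    exact X.regular (s + t) (by omega) (Fin.natAdd s i) _ _ h _
  invariant := fun t ht σ x y h => by
    obtain ⟨τ, h1, h2, -⟩ := exists_ext_perm s σ
    have h3 := X.invariant (s + t) (by omega) τ _ _ h
    rw [X.perm_app z σ τ h1 h2, X.perm_app z σ τ h1 h2] at h3
    exact h3

theorem MScheme.der_rel [Fintype V] (X : MScheme V m) {s : ℕ} (hs : s < m)
    (z : Fin (s + 1) ↪ V) {t : ℕ} (x y : Fin t ↪ X.Fib z) :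
    ((X.der hs z).rel t) x y ↔ (X.rel (s + t)) (X.app z x) (X.app z y) := Iff.rfl

theorem MScheme.der_homogeneous [Fintype V] (X : MScheme V m) {s : ℕ} (hs : s < m)
    (z : Fin (s + 1) ↪ V) : (X.der hs z).Homogeneous := fun x y =>
  (X.rel (s + 1)).trans' ((X.rel (s + 1)).symm' (X.rel_app_one z x)) (X.rel_app_one z y)

end MS216
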