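import Pool.Agent.H.MP_216555_lc.d.DerB

/-!
# Derived schemes, part C: 3-cycles and matchings
-/

set_option autoImplicit false
set_option linter.unusedSectionVars false

namespace MS216

variable {V : Type} {m : ℕ}

/-- If the derived color of `x` is mapped to itself by `σ`, then so is the color of `(z, x)` by the
extension `τ` of `σ`: `perm τ (z, x) = (z, perm σ x)` has the color of `(z, x)`, and `perm τ` maps the
color of a tuple `w` onto the color of `perm τ w` (invariance for `τ` and `τ⁻¹`). -/
theorem MScheme.der_noThreeCycle [Fintype V] (X : MScheme V m) {s : ℕ} (hs : s < m)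
    (z : Fin (s + 1) ↪ V) (h : X.NoThreeCycle) : (X.der hs z).NoThreeCycle := by
  intro t ht x σ hσ heq
  obtain ⟨τ, h1, h2, h3⟩ := exists_ext_perm s σ
  have hst : s + t ≤ m := by omega
  have hx : perm σ x ∈ (X.der hs z).color x := by
    rw [← heq]
    exact ⟨x, ((X.der hs z).rel t).refl' x, rfl⟩
  have hw : (X.rel (s + t)) (X.app z x) (perm τ (X.app z x)) := by
    rw [X.perm_app z σ τ h1 h2]
    exact (X.der_rel hs z x (perm σ x)).1 hx
  generalize X.app z x = w at hw
  refine h (s + t) hst w τ (h3 hσ) ?_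
  have e1 : ∀ y : Fin (s + t) ↪ V, perm τ (perm τ⁻¹ y) = y := by
    intro y
    ext i
    simp [perm]
  have e2 : ∀ y : Fin (s + t) ↪ V, perm τ⁻¹ (perm τ y) = y := by
    intro y
    ext i
    simp [perm]
  ext y
  constructor
  · rintro ⟨u, hu, rfl⟩
    exact (X.rel (s + t)).trans' hw (X.invariant (s + t) hst τ _ _ hu)
  · intro hy
    have h4 : (X.rel (s + t)) (perm τ w) y :=
      (X.rel (s + t)).trans' ((X.rel (s + t)).symm' hw) hy
    have h5 := X.invariant (s + t) hst τ⁻¹ _ _ h4
    rw [e2] at h5
    exact ⟨perm τ⁻¹ y, h5, e1 y⟩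

end MS216
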