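import Pool.Agent.H.MP_216555_lc.d.DerL

/-!
# Derived schemes, part I: an arbitrary place
-/

set_option autoImplicit false
set_option linter.unusedSectionVars false

namespace MS216

variable {V : Type} {m : ℕ}

theorem MScheme.exists_valency (X : MScheme V m) {s : ℕ} (hs : s + 1 ≤ m) (i : Fin (s + 1))
    (z : Fin (s + 1) ↪ V) : ∃ z' : Fin (s + 1) ↪ V,
      X.valency z' = Nat.card {x : Fin (s + 1) ↪ V // del i x = del i z ∧ (X.rel (s + 1)) z x} := by
  obtain ⟨τ, hτ⟩ : ∃ τ : Equiv.Perm (Fin (s + 1)), ∀ j : Fin s, τ ((Fin.last s).succAbove j) =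
      i.succAbove j := by
    refine ⟨(finSuccEquiv' (Fin.last s)).trans (finSuccEquiv' i).symm, fun j => ?_⟩
    rw [Equiv.trans_apply, finSuccEquiv'_succAbove, finSuccEquiv'_symm_some]
  have hdel : ∀ x : Fin (s + 1) ↪ V, del (Fin.last s) (perm τ x) = del i x := by
    intro x
    ext j
    show x (τ ((Fin.last s).succAbove j)) = x (i.succAbove j)
    rw [hτ]
  have hinv : ∀ x : Fin (s + 1) ↪ V, perm τ⁻¹ (perm τ x) = x := by
    intro x
    ext j
    show x (τ (τ⁻¹ j)) = x j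
    simp
  have hinv' : ∀ x : Fin (s + 1) ↪ V, perm τ (perm τ⁻¹ x) = x := by
    intro x
    ext j
    show x (τ⁻¹ (τ j)) = x j
    simp
  refine ⟨perm τ z, Nat.card_congr ?_⟩
  refine ⟨fun w => ⟨perm τ⁻¹ w.1, ?_, ?_⟩, fun x => ⟨perm τ x.1, ?_, ?_⟩, fun w => ?_, fun x => ?_⟩
  · rw [← hdel, hinv', w.2.1, hdel]
  · have h1 := X.invariant (s + 1) hs τ⁻¹ _ _ w.2.2
    rwa [hinv] at h1
  · rw [hdel, hdel, x.2.1]
  · exact X.invariant (s + 1) hs τ _ _ x.2.2
  · exact Subtype.ext (hinv' w.1)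
  · exact Subtype.ext (hinv x.1)

end MS216
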