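import Pool.Agent.H.MP_216555_lc.d.DerL

/-!
# Derived schemes, part K: the relation and the fibres
-/

set_option autoImplicit false
set_option linter.unusedSectionVars false

namespace MS216

variable {V : Type} {m : ℕ}

/-- The relation of level `t` of the derived scheme. -/
def MScheme.derRel (X : MScheme V m) {s : ℕ} (z : Fin (s + 1) ↪ V) (t : ℕ) :
    Setoid (Fin t ↪ X.Fib z) := (X.rel (s + t)).comap fun x => X.app z x

theorem MScheme.derRel_iff (X : MScheme V m) {s : ℕ} (z : Fin (s + 1) ↪ V) {t : ℕ}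
    (x y : Fin t ↪ X.Fib z) :
    (X.derRel z t) x y ↔ (X.rel (s + t)) (X.app z x) (X.app z y) := Iff.rfl

/-- The fibres of the derived scheme and of the scheme are in bijection (`x' ↦ (z, x')`,
`lift_app`). -/
theorem MScheme.card_fib [Fintype V] (X : MScheme V m) {s : ℕ} (z : Fin (s + 1) ↪ V) {t : ℕ}
    (hm : s + t + 1 ≤ m) (i : Fin (t + 1)) (x : Fin t ↪ X.Fib z) (z' : Fin (t + 1) ↪ X.Fib z) :
    Nat.card {x' : Fin (t + 1) ↪ X.Fib z // del i x' = x ∧ (X.derRel z (t + 1)) z' x'} =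
      Nat.card {w : Fin (s + t + 1) ↪ V // del (s := s + t) (Fin.natAdd s i) w = X.app z x ∧
        (X.rel (s + t + 1)) (X.app z z') w} := by
  refine Nat.card_eq_of_bijective (fun p => ⟨X.app z p.1, by
    rw [X.del_app, p.2.1], p.2.2⟩) ⟨?_, ?_⟩
  · intro p q hpq
    have h1 : X.app z p.1 = X.app z q.1 := congrArg Subtype.val hpq
    exact Subtype.ext (X.app_inj z h1)
  · rintro ⟨w, hw1, hw2⟩
    obtain ⟨x', hx1, hx2⟩ := X.lift_app z hm i x z' w hw1 hw2
    refine ⟨⟨x', hx2, ?_⟩, Subtype.ext hx1⟩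
    rw [X.derRel_iff]
    have h3 := hw2
    rw [← hx1] at h3
    exact h3

end MS216
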