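import Pool.Agent.H.MP_216555_lc.d.DerA

/-!
# Derived schemes, part L: lifting extensions
-/

set_option autoImplicit false
set_option linter.unusedSectionVars false

namespace MS216

variable {V : Type} {m : ℕ}

/-- Colors are compatible with the passage to arbitrary subtuples (use `MScheme.isos_iff` and
`MScheme.isos_sub`). -/
theorem MScheme.rel_restrict [Fintype V] (X : MScheme V m) {a b : ℕ} (hb : b ≤ m)
    (e : Fin a ↪ Fin b) {x y : Fin b ↪ V} (h : (X.rel b) x y) :
    (X.rel a) (e.trans x) (e.trans y) := by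
  classical
  have ha : a ≤ m := by
    have h0 := Fintype.card_le_of_embedding e
    rw [Fintype.card_fin, Fintype.card_fin] at h0
    omega
  have h1 := (X.isos_iff hb x y).2 h
  refine (X.isos_iff ha _ _).1 (X.isos_sub h1 _ ?_)
  intro p hp
  unfold graph at hp ⊢
  rw [Finset.mem_image] at hp ⊢
  obtain ⟨i, -, rfl⟩ := hp
  exact ⟨e i, Finset.mem_univ _, rfl⟩

private theorem DerL_sa1 {s t : ℕ} (i : Fin (t + 1)) (j : Fin s) :
    Fin.succAbove (n := s + t) (Fin.natAdd s i) (Fin.castAdd t j) = Fin.castAdd (t + 1) j := by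
  rw [Fin.succAbove_of_castSucc_lt]
  · rfl
  · rw [Fin.lt_def]
    simp only [Fin.val_castSucc, Fin.val_castAdd, Fin.val_natAdd]
    have := j.2
    omega

private theorem DerL_sa2 {s t : ℕ} (i : Fin (t + 1)) (j : Fin t) :
    Fin.succAbove (n := s + t) (Fin.natAdd s i) (Fin.natAdd s j) =
      Fin.natAdd s (i.succAbove j) := by
  rcases lt_or_ge j.castSucc i with h | h
  · rw [Fin.succAbove_of_castSucc_lt i j h, Fin.succAbove_of_castSucc_lt]
    · rfl
    · rw [Fin.lt_def] at h ⊢
      simp only [Fin.val_castSucc, Fin.val_natAdd] at h ⊢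
      omega
  · rw [Fin.succAbove_of_le_castSucc i j h, Fin.succAbove_of_le_castSucc]
    · rfl
    · rw [Fin.le_def] at h ⊢
      simp only [Fin.val_castSucc, Fin.val_natAdd] at h ⊢
      omega

/-- the first `s` coordinates and the coordinate `s + i` -/
private def DerL_e (s t : ℕ) (i : Fin (t + 1)) : Fin (s + 1) ↪ Fin (s + t + 1) :=
  ⟨fun k => if h : k.1 < s then ⟨k.1, by omega⟩ else ⟨s + i.1, by omega⟩, by
    intro a b hab
    have ha := a.2
    have hb := b.2
    ext
    by_cases h1 : a.1 < s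
    · by_cases h2 : b.1 < s
      · simp only [h1, h2, dif_pos, Fin.mk.injEq] at hab
        exact hab
      · simp only [h1, h2, dif_pos, dif_neg, not_false_eq_true, Fin.mk.injEq] at hab
        omega
    · by_cases h2 : b.1 < s
      · simp only [h1, h2, dif_pos, dif_neg, not_false_eq_true, Fin.mk.injEq] at hab
        omega
      · omega⟩

private theorem DerL_e_cast (s t : ℕ) (i : Fin (t + 1)) (j : Fin s) :
    DerL_e s t i j.castSucc = Fin.castAdd (t + 1) j := by
  unfold DerL_e
  simp only [Function.Embedding.coeFn_mk, Fin.val_castSucc, j.2, dif_pos]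
  rfl

private theorem DerL_e_last (s t : ℕ) (i : Fin (t + 1)) :
    DerL_e s t i (Fin.last s) = Fin.natAdd s i := by
  unfold DerL_e
  simp only [Function.Embedding.coeFn_mk, Fin.val_last, lt_self_iff_false, dif_neg,
    not_false_eq_true]
  rfl

/-- An extension of `(z, x)` in the color of some `(z, z')` is of the form `(z, x')`. -/
theorem MScheme.lift_app [Fintype V] (X : MScheme V m) {s : ℕ} (z : Fin (s + 1) ↪ V) {t : ℕ}
    (hm : s + t + 1 ≤ m) (i : Fin (t + 1)) (x : Fin t ↪ X.Fib z) (z' : Fin (t + 1) ↪ X.Fib z)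
    (w : Fin (s + t + 1) ↪ V) (h1 : del (s := s + t) (Fin.natAdd s i) w = X.app z x)
    (h2 : (X.rel (s + t + 1)) (X.app z z') w) :
    ∃ x' : Fin (t + 1) ↪ X.Fib z, X.app z x' = w ∧ del i x' = x := by
  classical
  have a1 : ∀ j : Fin s, w (Fin.castAdd (t + 1) j) = del (Fin.last s) z j := by
    intro j
    have h3 : del (s := s + t) (Fin.natAdd s i) w (Fin.castAdd t j) =
        X.app z x (Fin.castAdd t j) := by rw [h1]
    rw [X.app_castAdd] at h3
    rw [← h3]
    show _ = w (Fin.succAbove (n := s + t) (Fin.natAdd s i) (Fin.castAdd t j))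
    rw [DerL_sa1]
  have a2 : ∀ j : Fin t, w (Fin.natAdd s (i.succAbove j)) = (x j).1 := by
    intro j
    have h3 : del (s := s + t) (Fin.natAdd s i) w (Fin.natAdd s j) =
        X.app z x (Fin.natAdd s j) := by rw [h1]
    rw [X.app_natAdd] at h3
    rw [← h3]
    show _ = w (Fin.succAbove (n := s + t) (Fin.natAdd s i) (Fin.natAdd s j))
    rw [DerL_sa2]
  -- the new point
  obtain ⟨e, he1, he2⟩ : ∃ e : Fin (s + 1) ↪ Fin (s + t + 1),
      (∀ j : Fin s, e j.castSucc = Fin.castAdd (t + 1) j) ∧ e (Fin.last s) = Fin.natAdd s i :=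
    ⟨DerL_e s t i, DerL_e_cast s t i, DerL_e_last s t i⟩
  obtain ⟨x1, hx1⟩ : ∃ x1 : Fin 1 ↪ X.Fib z, ∀ k, x1 k = z' i :=
    ⟨⟨fun _ => z' i, fun a b _ => Subsingleton.elim a b⟩, fun _ => rfl⟩
  have h4 : e.trans (X.app z z' : Fin (s + t + 1) ↪ V) = X.app z x1 := by
    ext k
    show (X.app z z') (e k) = _
    cases k using Fin.lastCases with
    | last =>
      rw [he2]
      have h5 : X.app z x1 (Fin.last s) = (x1 0).1 := X.app_natAdd z x1 0
      rw [h5, hx1]
      exact X.app_natAdd z z' i
    | cast j =>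
      rw [he1]
      have h5 : X.app z x1 j.castSucc = del (Fin.last s) z j := X.app_castAdd z x1 j
      rw [h5]
      exact X.app_castAdd z z' j
  have h6 : (X.rel (s + 1)) z (e.trans w) := by
    have h7 := X.rel_restrict hm e h2
    rw [h4] at h7
    exact (X.rel (s + 1)).trans (X.rel_app_one z x1) h7
  have hy : ∃ w' : Fin (s + 1) ↪ V, del (Fin.last s) w' = del (Fin.last s) z ∧
      w' (Fin.last s) = w (Fin.natAdd s i) ∧ (X.rel (s + 1)) z w' := by
    refine ⟨e.trans w, ?_, ?_, h6⟩
    · ext j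
      rw [← a1 j]
      show w (e ((Fin.last s).succAbove j)) = _
      rw [Fin.succAbove_last, he1]
    · show w (e (Fin.last s)) = _
      rw [he2]
  have hex : ∀ k : Fin (t + 1), ∃ f : X.Fib z, f.1 = w (Fin.natAdd s k) := by
    intro k
    rcases eq_or_ne k i with rfl | hk
    · exact ⟨⟨w (Fin.natAdd s k), hy⟩, rfl⟩
    · obtain ⟨j, rfl⟩ := Fin.exists_succAbove_eq hk
      exact ⟨x j, (a2 j).symm⟩
  choose f hf using hex
  have hinj : Function.Injective f := by
    intro a b hab
    have h8 : w (Fin.natAdd s a) = w (Fin.natAdd s b) := by rw [← hf, ← hf, hab]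
    have h9 := w.injective h8
    have h10 : (Fin.natAdd s a : Fin (s + (t + 1))).1 = (Fin.natAdd s b : Fin (s + (t + 1))).1 :=
      congrArg (fun q : Fin (s + t + 1) => q.1) h9
    simp only [Fin.val_natAdd] at h10
    ext
    omega
  refine ⟨⟨f, hinj⟩, ?_, ?_⟩
  · have h11 : ∀ k : Fin (s + (t + 1)), X.app z ⟨f, hinj⟩ k = w k := by
      intro k
      refine Fin.addCases (fun j => ?_) (fun j => ?_) k
      · rw [X.app_castAdd]
        exact (a1 j).symm
      · rw [X.app_natAdd]
        exact hf j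
    exact Function.Embedding.ext h11
  · refine Function.Embedding.ext fun j => ?_
    show f (i.succAbove j) = x j
    exact Subtype.ext ((hf _).trans (a2 j))

end MS216
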