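import Pool.Agent.H.MP_216555_lc.d.DerB

/-!
# Derived schemes, part M: matchings
-/

set_option autoImplicit false
set_option linter.unusedSectionVars false

namespace MS216

variable {V : Type} {m : ℕ}

private theorem DerM_fib_eq {W : Type} {l : ℕ} (Y : MScheme W l) {r : ℕ} (hr : r + 1 ≤ l)
    (w : Fin (r + 1) ↪ W) (k : Fin (r + 1)) (u : Fin r ↪ W) (hu : (Y.rel r) (del k w) u) :
    Nat.card {w' : Fin (r + 1) ↪ W // del k w' = u ∧ (Y.rel (r + 1)) w w'} =
      Nat.card {w' : Fin (r + 1) ↪ W // del k w' = del k w ∧ (Y.rel (r + 1)) w w'} :=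
  (Y.regular r hr k (del k w) u hu w).symm

private theorem DerM_fib_pos {W : Type} [Finite W] {l : ℕ} (Y : MScheme W l) {r : ℕ}
    (w : Fin (r + 1) ↪ W) (k : Fin (r + 1)) :
    0 < Nat.card {w' : Fin (r + 1) ↪ W // del k w' = del k w ∧ (Y.rel (r + 1)) w w'} := by
  have : Nonempty {w' : Fin (r + 1) ↪ W // del k w' = del k w ∧ (Y.rel (r + 1)) w w'} :=
    ⟨⟨w, rfl, (Y.rel (r + 1)).refl' w⟩⟩
  exact Nat.card_pos

private theorem DerM_image {W : Type} [Finite W] {l : ℕ} (Y : MScheme W l) {r : ℕ}
    (hr : r + 1 ≤ l) (w : Fin (r + 1) ↪ W) (k : Fin (r + 1)) :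
    del k '' Y.color w = Y.color (del k w) := by
  ext u
  constructor
  · rintro ⟨w', hw', rfl⟩
    exact Y.compatible r hr w w' hw' k
  · intro hu
    have h1 := DerM_fib_eq Y hr w k u hu
    have h2 := DerM_fib_pos Y w k
    rw [← h1] at h2
    obtain ⟨⟨w', hw1, hw2⟩⟩ := (Nat.card_pos_iff.1 h2).1
    exact ⟨w', hw2, hw1⟩

private theorem DerM_inj_iff {W : Type} [Finite W] {l : ℕ} (Y : MScheme W l) {r : ℕ}
    (hr : r + 1 ≤ l) (w : Fin (r + 1) ↪ W) (k : Fin (r + 1)) :
    (del k '' Y.color w).ncard = (Y.color w).ncard ↔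
      Nat.card {w' : Fin (r + 1) ↪ W // del k w' = del k w ∧ (Y.rel (r + 1)) w w'} = 1 := by
  rw [Set.ncard_image_iff (Set.toFinite _), Nat.card_eq_one_iff_unique]
  constructor
  · intro h
    refine ⟨⟨fun a b => Subtype.ext (h a.2.2 b.2.2 (a.2.1.trans b.2.1.symm))⟩,
      ⟨⟨w, rfl, (Y.rel (r + 1)).refl' w⟩⟩⟩
  · rintro ⟨h1, h2⟩ a ha b hb hab
    have hc : Nat.card {w' : Fin (r + 1) ↪ W // del k w' = del k w ∧ (Y.rel (r + 1)) w w'} = 1 :=
      Nat.card_eq_one_iff_unique.2 ⟨h1, h2⟩
    rw [← DerM_fib_eq Y hr w k (del k a) (Y.compatible r hr w a ha k),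
      Nat.card_eq_one_iff_unique] at hc
    have h3 := hc.1.elim ⟨a, rfl, ha⟩ ⟨b, hab.symm, hb⟩
    exact congrArg Subtype.val h3

/-- A matching of the derived scheme (color of `x`, level `t + 1`, places `i < j`) gives a matching of
the scheme (color of `(z, x)`, places `s + i < s + j`). The image of the color of `w` under `del k` is
the color of `del k w` (compatibility and regularity: the number of extensions of `del k w` in the color
of `w` is positive), so for the first condition it is enough that `del (s + i) (z, x)` and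
`del (s + j) (z, x)` have the same color: take `x'` in the derived color of `x` with
`del j x' = del i x`. For the second condition: `|π_i(P)| = |P|` if and only if `π_i` is injective on
`P` (finite), if and only if (regularity) the tuple `del i w` has exactly one extension in the color of
`w`, for one `w` in `P`; `card_fib`. -/
theorem MScheme.der_hasMatching [Fintype V] (X : MScheme V m) {s : ℕ} (hs : s < m)
    (z : Fin (s + 1) ↪ V) (h : (X.der hs z).HasMatching) : X.HasMatching := by
  obtain ⟨t, ht1, ht2, x, i, j, hij, himg, hcard⟩ := h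
  have hfin : Finite (X.Fib z) := Subtype.finite
  have hm : s + t + 1 ≤ m := by omega
  refine ⟨s + t, by omega, hm, X.app z x, Fin.natAdd s i, Fin.natAdd s j, ?_, ?_, ?_⟩
  · rw [Fin.lt_def] at hij ⊢
    show s + i.val < s + j.val
    omega
  · rw [DerM_image X hm, DerM_image X hm, X.del_app, X.del_app]
    have h1 : del i x ∈ del j '' (X.der hs z).color x := by
      rw [← himg]
      exact ⟨x, ((X.der hs z).rel (t + 1)).refl' x, rfl⟩
    obtain ⟨x', hx', hx2⟩ := h1
    have h2 : (X.rel (s + t + 1)) (X.app z x) (X.app z x') := hx'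
    have h3 := X.compatible (s + t) hm _ _ h2 (Fin.natAdd s j)
    rw [X.del_app, X.del_app, hx2] at h3
    ext u
    constructor
    · intro hu
      exact (X.rel (s + t)).trans' h3 hu
    · intro hu
      exact (X.rel (s + t)).trans' ((X.rel (s + t)).symm' h3) hu
  · rw [DerM_inj_iff X hm, X.del_app, ← X.card_fib z hm i (del i x) x]
    exact (DerM_inj_iff (X.der hs z) (by omega) x i).1 hcard

end MS216
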