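import Pool.Agent.H.MP_216555_lc.d.DerC
import Pool.Agent.H.MP_216555_lc.d.DerM
import Pool.Agent.H.MP_216555_lc.d.DerI
import Pool.Agent.H.MP_216555_lc.l.NoGood
import Pool.Agent.H.MP_216555_lc.SGood

/-!
# Derived schemes: the main theorem
-/

set_option autoImplicit false

namespace MS216

theorem mainDer (ε : ℝ) (hε : 0 < ε) : ∃ d₀ : ℕ, ∀ (V : Type) [Fintype V] (m : ℕ)
    (X : MScheme V m), X.NoThreeCycle → ∀ (s : ℕ) (i : Fin (s + 1)) (z : Fin (s + 1) ↪ V) (d : ℕ),
    d = Nat.card {x : Fin (s + 1) ↪ V // del i x = del i z ∧ (X.rel (s + 1)) z x} → d₀ ≤ d →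
    s + (4 + ε) * Real.log d / Real.log (Real.log (Real.log d)) ≤ m → X.HasMatching := by
  classical
  obtain ⟨d₀, h⟩ := noGood ε hε
  refine ⟨max d₀ 2, fun V _ m X hN s i z d hd hd0 hm => ?_⟩
  have hd1 : d₀ ≤ d := (le_max_left _ _).trans hd0
  have hd2 : 2 ≤ d := (le_max_right _ _).trans hd0
  have hs : s < m := by
    by_contra hc
    have h1 : (m : ℝ) ≤ s := by exact_mod_cast not_lt.1 hc
    have h2 := (h 0 d hd1 (by push_cast; linarith)).1
    omega
  obtain ⟨z', hz'⟩ := X.exists_valency (Nat.succ_le_of_lt hs) i z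
  rw [← hz'] at hd
  have hmr : (4 + ε) * Real.log d / Real.log (Real.log (Real.log d)) ≤ ((m - s : ℕ) : ℝ) := by
    rw [Nat.cast_sub hs.le]
    linarith
  obtain ⟨h10, hno⟩ := h (m - s) d hd1 hmr
  by_contra hM
  have hfin : Finite (X.Fib z') := Subtype.finite
  have hft : Fintype (X.Fib z') := Fintype.ofFinite _
  have hcard : Fintype.card (X.Fib z') = d := by
    rw [hd, ← X.card_Fib z', Nat.card_eq_fintype_card]
  refine hno ⟨X.Fib z', hft, inferInstance, (X.der hs z').toPI, ?_, hcard⟩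
  exact (X.der hs z').good (by omega) (by omega) (X.der_homogeneous hs z')
    (X.der_noThreeCycle hs z' hN) fun h1 => hM (X.der_hasMatching hs z' h1)

end MS216
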