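import Pool.Agent.H.MP_216555_lc.d.DerC
import Pool.Agent.H.MP_216555_lc.d.DerI
import Pool.Agent.H.MP_216555_lc.k.ThinS

/-!
# Derived schemes: colors of small valency, local version
-/

set_option autoImplicit false
set_option linter.unusedSectionVars false

namespace MS216

variable {V : Type} {m : ℕ}

private theorem dt_image {W : Type} [Finite W] {l : ℕ} (Y : MScheme W l) {r : ℕ}
    (hr : r + 1 ≤ l) (w : Fin (r + 1) ↪ W) (k : Fin (r + 1)) :
    del k '' Y.color w = Y.color (del k w) := by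
  ext u
  constructor
  · rintro ⟨w', hw', rfl⟩
    exact Y.compatible r hr w w' hw' k
  · intro hu
    have h1 := Y.regular r hr k (del k w) u hu w
    have hne : Nonempty {w' : Fin (r + 1) ↪ W // del k w' = del k w ∧ (Y.rel (r + 1)) w w'} :=
      ⟨⟨w, rfl, (Y.rel (r + 1)).refl' w⟩⟩
    have h2 : 0 < Nat.card {w' : Fin (r + 1) ↪ W // del k w' = del k w ∧ (Y.rel (r + 1)) w w'} :=
      Nat.card_pos
    rw [h1] at h2
    obtain ⟨⟨w', hw1, hw2⟩⟩ := (Nat.card_pos_iff.1 h2).1
    exact ⟨w', hw2, hw1⟩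

/-- All fibres of a projection of a color have the same size. -/
private theorem dt_count {W : Type} [Finite W] {l : ℕ} (Y : MScheme W l) {r : ℕ}
    (hr : r + 1 ≤ l) (w : Fin (r + 1) ↪ W) (k : Fin (r + 1)) :
    (Y.color w).ncard =
      Nat.card {w' : Fin (r + 1) ↪ W // del k w' = del k w ∧ (Y.rel (r + 1)) w w'} *
        (del k '' Y.color w).ncard := by
  classical
  have hft : Fintype W := Fintype.ofFinite W
  obtain ⟨Q, hQ⟩ : ∃ Q : Finset (Fin (r + 1) ↪ W), ∀ u, u ∈ Q ↔ (Y.rel (r + 1)) w u :=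
    ⟨Finset.univ.filter fun u => (Y.rel (r + 1)) w u, fun u => by simp⟩
  have h1 : Y.color w = ↑Q := by
    ext u
    exact (hQ u).symm
  rw [h1, ← Finset.coe_image, Set.ncard_coe_finset, Set.ncard_coe_finset,
    Finset.card_eq_sum_card_image (del k) Q, mul_comm, Finset.sum_const_nat]
  intro a ha
  obtain ⟨u, hu, rfl⟩ := Finset.mem_image.1 ha
  have hru : (Y.rel r) (del k w) (del k u) := Y.compatible r hr _ _ ((hQ u).1 hu) k
  rw [Y.regular r hr k _ _ hru w, Nat.card_eq_fintype_card, Fintype.card_subtype]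
  congr 1
  ext v
  rw [Finset.mem_filter, Finset.mem_filter, hQ]
  constructor
  · rintro ⟨h2, h3⟩
    exact ⟨Finset.mem_univ _, h3, h2⟩
  · rintro ⟨-, h2, h3⟩
    exact ⟨h3, h2⟩

/-- Colors of small valency in schemes with boundedly many levels, local version. -/
theorem thinLoc (K : ℕ) (hK : 2 ≤ K) (V : Type) [Fintype V] (m : ℕ) (X : MScheme V m)
    (h2 : X.NoThreeCycle) (t : ℕ) (i₀ : Fin (t + 1)) (z : Fin (t + 1) ↪ V) (d : ℕ)
    (hd : d = Nat.card {x : Fin (t + 1) ↪ V // del i₀ x = del i₀ z ∧ (X.rel (t + 1)) z x})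
    (hn : K ^ K ^ (721 * K ^ 8) ≤ d) (hm : t + 6 * K ^ 8 + 6 ≤ m) :
    ∃ s, s ≤ 6 * K ^ 8 ∧ ∃ (x : Fin (t + s + 2) ↪ V) (i j : Fin (t + s + 2)), i < j ∧
      del i '' X.color x = del j '' X.color x ∧
      K ^ (s + 1) * (X.color x).ncard < d * (del i '' X.color x).ncard := by
  classical
  obtain ⟨z', hz'⟩ := X.exists_valency (by omega) i₀ z
  rw [← hz'] at hd
  have hs : t < m := by omega
  have hfin : Finite (X.Fib z') := Subtype.finite
  have hft : Fintype (X.Fib z') := Fintype.ofFinite _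
  have hcard : Fintype.card (X.Fib z') = d := by
    rw [hd, ← X.card_Fib z', Nat.card_eq_fintype_card]
  obtain ⟨s, hs6, x, i, j, hij, himg, hlt⟩ := thinMain K hK (X.Fib z') (m - t) (X.der hs z')
    (by omega) (by rw [hcard]; exact hn) (X.der_homogeneous hs z') (X.der_noThreeCycle hs z' h2)
  have hm1 : t + (s + 1) + 1 ≤ m := by omega
  have hm2 : s + 1 + 1 ≤ m - t := by omega
  have hgoal : ∃ (x : Fin (t + (s + 1) + 1) ↪ V) (i j : Fin (t + (s + 1) + 1)), i < j ∧
      del i '' X.color x = del j '' X.color x ∧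
      K ^ (s + 1) * (X.color x).ncard < d * (del i '' X.color x).ncard := by
    refine ⟨@MScheme.app V m X t z' (s + 2) x, @Fin.natAdd (s + 2) t i, @Fin.natAdd (s + 2) t j,
      ?_, ?_, ?_⟩
    · rw [Fin.lt_def] at hij ⊢
      show t + i.val < t + j.val
      omega
    · have e1 := dt_image X hm1 (@MScheme.app V m X t z' (s + 2) x) (@Fin.natAdd (s + 2) t i)
      have e2 := dt_image X hm1 (@MScheme.app V m X t z' (s + 2) x) (@Fin.natAdd (s + 2) t j)
      rw [X.del_app] at e1 e2
      refine e1.trans (Eq.trans ?_ e2.symm)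
      have h1 : del i x ∈ del j '' (X.der hs z').color x := by
        rw [← himg]
        exact ⟨x, ((X.der hs z').rel (s + 1 + 1)).refl' x, rfl⟩
      obtain ⟨x', hx', hx2⟩ := h1
      have h4 : (X.rel (t + (s + 1) + 1)) (@MScheme.app V m X t z' (s + 2) x) (@MScheme.app V m X t z' (s + 2) x') := hx'
      have h3 := X.compatible (t + (s + 1)) hm1 _ _ h4 (@Fin.natAdd (s + 2) t j)
      rw [X.del_app, X.del_app, hx2] at h3
      ext u
      constructor
      · intro hu
        exact (X.rel (t + (s + 1))).trans' h3 hu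
      · intro hu
        exact (X.rel (t + (s + 1))).trans' ((X.rel (t + (s + 1))).symm' h3) hu
    · have c1 := dt_count X hm1 (@MScheme.app V m X t z' (s + 2) x) (@Fin.natAdd (s + 2) t i)
      have c2 := dt_count (X.der hs z') hm2 x i
      have c3 := X.card_fib z' hm1 i (del i x) x
      rw [X.del_app] at c1
      obtain ⟨F, hF⟩ : ∃ F, F = Nat.card {w : Fin (t + (s + 1) + 1) ↪ V //
          del (s := t + (s + 1)) (@Fin.natAdd (s + 2) t i) w = X.app z' (del i x) ∧
            (X.rel (t + (s + 1) + 1)) (@MScheme.app V m X t z' (s + 2) x) w} := ⟨_, rfl⟩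
      have c2' : ((X.der hs z').color x).ncard =
          F * (del i '' (X.der hs z').color x).ncard := by
        rw [hF, ← c3]
        exact c2
      rw [← hF] at c1
      have hpos : 0 < (del (s := t + (s + 1)) (@Fin.natAdd (s + 2) t i) '' X.color (@MScheme.app V m X t z' (s + 2) x)).ncard := by
        refine (Set.ncard_pos (Set.toFinite _)).2 ⟨_, @MScheme.app V m X t z' (s + 2) x, ?_, rfl⟩
        exact (X.rel (t + (s + 1) + 1)).refl' _
      rw [hcard, c2', ← mul_assoc] at hlt
      have h5 : K ^ (s + 1) * F < d := Nat.lt_of_mul_lt_mul_right hlt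
      have h6 := Nat.mul_lt_mul_of_pos_right h5 hpos
      rw [mul_assoc, ← c1] at h6
      exact h6
  exact ⟨s, hs6, hgoal⟩

end MS216
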